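import Pool.Agent.Run7.h49.JT.Iface

set_option autoImplicit false

/-!
Project JT (helper49), piece A2 (helper382): approximation of the high part of a functional
-/

namespace Pool.Agent.Run7.h382.JT

open Pool.Agent.R277.JT Run7.h49.JT Set Filter Topology

theorem t_A2 : S_A2 := by
  classical
  intro y σ hσ hcov δ hδ m0 k0
  obtain ⟨F0, hF0⟩ := structA y hδ
  have hg : ∀ d : Br, ∃ n : ℕ, Lm (br d) y ≠ 0 → ∃ i < n, σ i = d := by
    intro d
    by_cases h : Lm (br d) y ≠ 0
    · obtain ⟨i, hi⟩ := hcov d h
      exact ⟨i + 1, fun _ => ⟨i, Nat.lt_succ_self i, hi⟩⟩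
    · exact ⟨0, fun h' => absurd h' h⟩
  choose g hg using hg
  set m : ℕ := max m0 (F0.sup g) with hm
  set G : Finset Br := (Finset.range m).image σ with hG
  obtain ⟨k1, hk1⟩ := hF0 (F0 ∪ G) Finset.subset_union_left
  obtain ⟨k2, hk2⟩ := exists_sep G
  refine ⟨m, max k0 (max k1 k2), le_max_left _ _, le_max_left _ _, ?_, ?_⟩
  · intro i hi j hj hij
    have hS := hk2.mono (show k2 ≤ max k0 (max k1 k2) from (le_max_right _ _).trans (le_max_right _ _))
    exact hS (σ i) (Finset.mem_image_of_mem _ (Finset.mem_range.2 hi)) (σ j)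
      (Finset.mem_image_of_mem _ (Finset.mem_range.2 hj)) (fun h => hij (hσ h))
  · have h1 := hk1 (max k0 (max k1 k2)) ((le_max_left _ _).trans (le_max_right _ _))
    have h2 : ∑ c ∈ F0 ∪ G, Lm (br c) y • sg (br c) (max k0 (max k1 k2)) =
        ∑ i ∈ Finset.range m, Lm (br (σ i)) y • sg (br (σ i)) (max k0 (max k1 k2)) := by
      rw [← Finset.sum_image (f := fun c => Lm (br c) y • sg (br c) (max k0 (max k1 k2)))
        (fun i _ j _ h => hσ h)]
      symm
      apply Finset.sum_subset Finset.subset_union_right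
      intro c hc hcG
      have hc0 : Lm (br c) y = 0 := by
        by_contra hne
        obtain ⟨i, hi, hic⟩ := hg c hne
        apply hcG
        rw [Finset.mem_image]
        refine ⟨i, Finset.mem_range.2 ?_, hic⟩
        have hcF : c ∈ F0 := by
          rcases Finset.mem_union.1 hc with h | h
          · exact h
          · exact absurd h hcG
        exact lt_of_lt_of_le hi ((Finset.le_sup (f := g) hcF).trans (le_max_right _ _))
      rw [hc0, zero_smul]
    rw [h2] at h1
    exact h1

end Pool.Agent.Run7.h382.JT
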