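import Pool.Agent.Run7.h49.JT.Iface

set_option autoImplicit false

/-!
Project JT (helper49), pieces C1 and C2 (helper382): refinement, and the step from a parent to a child
-/

namespace Pool.Agent.Run7.h382.JT

open Pool.Agent.R277.JT Run7.h49.JT Set Filter Topology

instance : Countable Tree := inferInstanceAs (Countable (List Bool))

theorem t_C1 (hA2 : S_A2) (hA4 : S_A4) (hB1 : S_B1) (hB2 : S_B2) (hB3 : S_B3) : S_C1 := by
  classical
  intro Z y σ M hF S ε m0 k0 hS hε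
  -- the parameters of each member
  choose mm kk hm0 hk0 hsep hapx using fun z : Br => hA2 (y z) (σ z) (hF.inj z) (hF.cov z) ε hε m0 k0
  obtain ⟨S1, hS1, hS1u, hS1g, -⟩ := hB3 (ℕ × ℕ) (Fin 0) S (fun z => (mm z, kk z))
    (fun _ _ => 0) 1 one_pos hS
  have hne1 : S1.Nonempty := by
    by_contra h
    rw [Set.not_nonempty_iff_eq_empty] at h
    exact hS1u (h ▸ Set.countable_empty)
  obtain ⟨z0, hz0⟩ := hne1
  set m : ℕ := mm z0 with hm
  set k : ℕ := kk z0 with hk
  have hmz : ∀ z ∈ S1, mm z = m := fun z hz => (Prod.ext_iff.1 (hS1g z hz z0 hz0)).1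
  have hkz : ∀ z ∈ S1, kk z = k := fun z hz => (Prod.ext_iff.1 (hS1g z hz z0 hz0)).2
  set L : Finset Tree := (Lev.fin (I := Tree) k).toFinset with hL
  set η : ℝ := ε / ((m : ℝ) + L.card + 1) with hη
  have hden : (0 : ℝ) < (m : ℝ) + L.card + 1 := by positivity
  have hηpos : 0 < η := div_pos hε hden
  have hηm : (m : ℝ) * η ≤ ε := by
    rw [hη, mul_div_assoc', div_le_iff₀ hden]
    have : (0 : ℝ) ≤ L.card := Nat.cast_nonneg _
    nlinarith
  have hηL : (L.card : ℝ) * η ≤ ε := by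
    rw [hη, mul_div_assoc', div_le_iff₀ hden]
    have : (0 : ℝ) ≤ m := Nat.cast_nonneg _
    nlinarith
  obtain ⟨S2, hS2, hS2u, -, hS2f⟩ := hB3 Unit (Fin m ⊕ {a // a ∈ L}) S1 (fun _ => ())
    (fun j z => Sum.elim (fun i : Fin m => cf y σ z i) (fun a : {a // a ∈ L} => y z (ev a.1)) j)
    η hηpos hS1u
  obtain ⟨S3, I, hS3, hS3u, hI, hcon, hmov⟩ := hB1 S2 (fun i z => σ z i) m hS2u
  obtain ⟨S4, hS4, ⟨c, hc⟩, hcond⟩ := hB2 (Fin m → Tree) S3 (fun K z => fun i : Fin m => br (σ z i) K) hS3u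
  have h43 : ∀ z ∈ S4, z ∈ S3 := fun z hz => hS4 hz
  have h42 : ∀ z ∈ S4, z ∈ S2 := fun z hz => hS3 (hS4 hz)
  have h41 : ∀ z ∈ S4, z ∈ S1 := fun z hz => hS2 (hS3 (hS4 hz))
  refine ⟨c, S4, m, k, I, fun z hz => hS1 (h41 z hz), ?_, ?_, ?_⟩
  · exact hm0 z0
  · exact hk0 z0
  constructor
  · exact hc
  · exact hI
  · intro K hcount
    apply hcond c hc K
    refine hcount.mono ?_
    rintro z ⟨hz, hzK⟩
    refine ⟨hz, fun i hi => ?_⟩
    exact congrFun hzK ⟨i, hi⟩
  · intro i hi d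
    refine Set.Countable.mono ?_ (hmov i hi d)
    intro z hz
    exact ⟨h43 z hz.1, hz.2⟩
  · intro i hi hiI z hz
    exact hcon i hi hiI z (h43 z hz) c (h43 c hc)
  · intro z hz
    have h := hapx z
    rw [hmz z (h41 z hz), hkz z (h41 z hz)] at h
    exact h
  · intro z hz
    have h1 : ∀ i ∈ Finset.range m, |cf y σ z i - cf y σ c i| ≤ η := by
      intro i hi
      exact hS2f z (h42 z hz) c (h42 c hc) (Sum.inl ⟨i, Finset.mem_range.1 hi⟩)
    refine (Finset.sum_le_sum h1).trans ?_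
    rw [Finset.sum_const, Finset.card_range, nsmul_eq_mul]
    exact hηm
  · intro z hz
    have h1 : ∀ a ∈ L, |(y z - y c) (ev a)| ≤ η := by
      intro a ha
      exact hS2f z (h42 z hz) c (h42 c hc) (Sum.inr ⟨a, ha⟩)
    refine (hA4 (y z - y c) k).trans ((Finset.sum_le_sum h1).trans ?_)
    rw [Finset.sum_const, nsmul_eq_mul]
    exact hηL
  · intro z hz i hi j hj hij
    have h := hsep z
    rw [hmz z (h41 z hz), hkz z (h41 z hz)] at h
    exact h i hi j hj hij

theorem t_C2 (hC1 : S_C1) : S_C2 := by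
  classical
  intro Z y σ M hF c Γ m k I ε hG E K ε' hε'
  set R : Set Br := ⋃ i ∈ I, ⋃ d ∈ E, {z ∈ Γ | σ z i = d} with hR
  have hRc : R.Countable := by
    rw [hR]
    refine Set.Countable.biUnion I.countable_toSet fun i hi => ?_
    exact Set.Countable.biUnion E.countable_toSet fun d _ => hG.mov i hi d
  have hSu : ¬ ({z ∈ Γ | ∀ i < m, br (σ z i) K = br (σ c i) K} \ R).Countable := by
    intro h
    apply hG.cond K
    refine (h.union hRc).mono ?_
    intro z hz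
    by_cases hzR : z ∈ R
    · exact Or.inr hzR
    · exact Or.inl ⟨hz, hzR⟩
  obtain ⟨c', Γ', m', k', I', hsub, hmm, -, hG'⟩ := hC1 Z y σ M hF _ ε' m 0 hSu hε'
  have hΓ : Γ' ⊆ Γ := fun z hz => (hsub hz).1.1
  have hΓu : ¬ Γ'.Countable := fun h => hG'.cond 0 (h.mono fun z hz => hz.1)
  refine ⟨c', Γ', m', k', I', hΓ, hmm, hG', ?_, ?_, ?_, ?_⟩
  · intro i hi
    exact (hsub hG'.mem).1.2 i hi
  · intro i hi hE
    apply (hsub hG'.mem).2
    rw [hR]
    simp only [Set.mem_iUnion]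
    exact ⟨i, hi, σ c' i, hE, hΓ hG'.mem, rfl⟩
  · intro i hi
    by_contra hiI
    have him : i < m := hG.Ilt i hi
    apply hΓu
    refine Set.Countable.mono ?_ (hG.mov i hi (σ c' i))
    intro z hz
    refine ⟨hΓ hz, ?_⟩
    exact hG'.con i (lt_of_lt_of_le him hmm) hiI z hz
  · intro i hi him
    by_contra hiI
    apply hΓu
    refine Set.Countable.mono ?_ (hG'.mov i hi (σ c i))
    intro z hz
    refine ⟨hz, ?_⟩
    exact hG.con i him hiI z (hΓ hz)

end Pool.Agent.Run7.h382.JT
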